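import Mathlib
import Pool.Agent.Y248.FD.Stm
import Pool.Agent.Y350.FC.GE
set_option autoImplicit false

/-! # Project FD: level sets (the argument of helper350's `t_ge`) -/

namespace Pool.Agent.Y275.FD

open MeasureTheory Set Metric Complex Filter
open scoped ENNReal RealInnerProductSpace Topology FourierTransform
open Pool.Agent.H789R2.FR (E sg T)
open Pool.Agent.Y248.FB Pool.Agent.Y248.FC
open Pool.Agent.Y248.FD (En S_LS)
open Pool.Agent.Y350.FC (bb_ind bb_smul fm_smul enorm_sum_le lev lev_meas pcs pcs_sum pcs_bb)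

/-- local finiteness -/
def LF {n : ℕ} (μ : Measure (E n)) : Prop := ∀ (x : E n) (ρ : ℝ), μ (closedBall x ρ) < ∞

theorem bb_int {n : ℕ} {μ : Measure (E n)} (hμ : LF μ) {g : E n → ℂ} (hg : BB g) :
    Integrable g μ := by
  obtain ⟨hm, ⟨M, hM⟩, ρ, hρ⟩ := hg
  have h1 : IntegrableOn g (closedBall 0 ρ) μ :=
    Measure.integrableOn_of_bounded (M := M) (hμ 0 ρ).ne hm.aestronglyMeasurable
      (Eventually.of_forall hM)
  exact h1.integrable_of_forall_notMem_eq_zero fun x hx => hρ x hx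

theorem fm_int {n : ℕ} {μ : Measure (E n)} (hμ : LF μ) {g : E n → ℂ} (hg : BB g) (ξ : E n) :
    Integrable (fun x => g x * cexp (((2 * Real.pi * ⟪x, ξ⟫ : ℝ) : ℂ) * I)) μ := by
  refine (bb_int hμ hg).mul_bdd (c := 1) ?_ (Eventually.of_forall fun x => ?_)
  · apply Continuous.aestronglyMeasurable
    fun_prop
  · rw [Complex.norm_exp_ofReal_mul_I]

theorem fm_sum {n : ℕ} {μ : Measure (E n)} (hμ : LF μ) {ι : Type} (s : Finset ι)
    (G : ι → E n → ℂ) (hG : ∀ i ∈ s, BB (G i)) (ξ : E n) :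
    Fm (fun x => ∑ i ∈ s, G i x) μ ξ = ∑ i ∈ s, Fm (G i) μ ξ := by
  unfold Fm
  rw [← integral_finsetSum _ fun i hi => fm_int hμ (hG i hi) ξ]
  exact integral_congr_ae (Eventually.of_forall fun x => by simp only [Finset.sum_mul])

theorem fm_meas {n : ℕ} {μ : Measure (E n)} (hμ : LF μ) {g : E n → ℂ} (hg : BB g) :
    Measurable (Fm g μ) := by
  obtain ⟨hm, ⟨M, hM⟩, ρ, hρ⟩ := hg
  have hfin : IsFiniteMeasure (μ.restrict (closedBall 0 ρ)) :=
    ⟨by rw [Measure.restrict_apply_univ]; exact hμ 0 ρ⟩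
  have e1 : Fm g μ = fun ξ =>
      ∫ x in closedBall (0 : E n) ρ, g x * cexp (((2 * Real.pi * ⟪x, ξ⟫ : ℝ) : ℂ) * I) ∂μ := by
    funext ξ
    unfold Fm
    exact (setIntegral_eq_integral_of_forall_compl_eq_zero fun x hx => by
      rw [hρ x hx, zero_mul]).symm
  rw [e1]
  have h2 : Measurable fun z : E n × E n => g z.2 *
      cexp (((2 * Real.pi * ⟪z.2, z.1⟫ : ℝ) : ℂ) * I) := by
    have h1 : Continuous fun z : E n × E n => cexp (((2 * Real.pi * ⟪z.2, z.1⟫ : ℝ) : ℂ) * I) := by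
      fun_prop
    exact (hm.comp measurable_snd).mul h1.measurable
  exact (h2.stronglyMeasurable.integral_prod_right' (ν := μ.restrict (closedBall 0 ρ))).measurable

theorem en_sum {n : ℕ} {q : E n → ℂ} (hq : Continuous q) {μ : Measure (E n)} (hμ : LF μ)
    {ι : Type} (s : Finset ι) (G : ι → E n → ℂ) (hG : ∀ i ∈ s, BB (G i)) :
    En q (fun x => ∑ i ∈ s, G i x) μ ≤ (s.card : ℝ≥0∞) * ∑ i ∈ s, En q (G i) μ := by
  unfold En
  have hmeas : ∀ i ∈ s, Measurable fun ξ => ‖q ξ * Fm (G i) μ ξ‖ₑ ^ (2 : ℝ) := fun i hi =>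
    ((hq.measurable.mul (fm_meas hμ (hG i hi))).enorm.pow_const _)
  rw [← lintegral_finsetSum _ hmeas,
    ← lintegral_const_mul' _ _ (ENNReal.natCast_ne_top _)]
  refine lintegral_mono fun ξ => ?_
  have h1 : q ξ * Fm (fun x => ∑ i ∈ s, G i x) μ ξ = ∑ i ∈ s, q ξ * Fm (G i) μ ξ := by
    rw [fm_sum hμ s G hG, Finset.mul_sum]
  simp only [h1]
  exact enorm_sum_le s _

theorem en_smul {n : ℕ} (q : E n → ℂ) (μ : Measure (E n)) (g : E n → ℂ) (c : ℂ) :
    En q (fun x => c * g x) μ = ‖c‖ₑ ^ (2 : ℝ) * En q g μ := by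
  unfold En
  rw [← lintegral_const_mul' _ _ (ENNReal.rpow_ne_top_of_nonneg (by norm_num) enorm_ne_top)]
  refine lintegral_congr fun ξ => ?_
  rw [fm_smul, ← ENNReal.mul_rpow_of_nonneg _ _ (by norm_num), ← enorm_mul]
  congr 2
  ring

/-- number of pieces -/
theorem num_pcs (s : ℝ) (hs1 : s < 2) : ∃ C : ℝ, 0 < C ∧ ∀ B : ℝ,
    2 ≤ B → ∃ M : ℕ, ((1 / 2 : ℝ) ^ M) ^ (2 - s) ≤ B⁻¹ ∧ ((M : ℝ) + 2) ^ 2 ≤ C * Real.log B ^ 2 := by
  have h2s : 0 < 2 - s := by linarith
  have hl2 : 0 < Real.log 2 := Real.log_pos (by norm_num)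
  obtain ⟨c, hc⟩ : ∃ c : ℝ, c = 1 / (Real.log 2 * (2 - s)) + 3 / Real.log 2 := ⟨_, rfl⟩
  have hc0 : 0 < c := by rw [hc]; positivity
  refine ⟨c ^ 2, by positivity, fun B hB => ?_⟩
  have hB0 : 0 < B := by linarith
  have hlB : Real.log 2 ≤ Real.log B := Real.log_le_log (by norm_num) hB
  have hlB0 : 0 < Real.log B := by linarith
  refine ⟨⌈Real.log B / (Real.log 2 * (2 - s))⌉₊, ?_, ?_⟩
  · set M := ⌈Real.log B / (Real.log 2 * (2 - s))⌉₊ with hM
    have h1 : Real.log B / (Real.log 2 * (2 - s)) ≤ M := Nat.le_ceil _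
    rw [div_le_iff₀ (by positivity)] at h1
    rw [← Real.rpow_natCast, ← Real.rpow_mul (by norm_num), one_div, Real.inv_rpow (by norm_num)]
    refine inv_anti₀ hB0 ?_
    rw [← Real.log_le_log_iff hB0 (by positivity), Real.log_rpow (by norm_num)]
    linarith
  · set M := ⌈Real.log B / (Real.log 2 * (2 - s))⌉₊ with hM
    have h1 : (M : ℝ) < Real.log B / (Real.log 2 * (2 - s)) + 1 := Nat.ceil_lt_add_one (by positivity)
    have h2 : (3 : ℝ) ≤ 3 / Real.log 2 * Real.log B := by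
      rw [div_mul_eq_mul_div, le_div_iff₀ hl2]
      linarith
    have h4 : (M : ℝ) + 2 ≤ c * Real.log B := by
      have h6 : Real.log B / (Real.log 2 * (2 - s)) = 1 / (Real.log 2 * (2 - s)) * Real.log B := by
        ring
      rw [hc, add_mul, ← h6]
      linarith
    calc ((M : ℝ) + 2) ^ 2 ≤ (c * Real.log B) ^ 2 := by gcongr
      _ = c ^ 2 * Real.log B ^ 2 := by rw [mul_pow]

/-- the estimate for normalised functions -/
theorem ls_norm (n : ℕ) (r : ℝ) (hr1 : 1 < r) (hr2 : r < 2) : ∃ C : ℝ, 0 < C ∧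
    ∀ μ : Measure (E n), LF μ → ∀ q : E n → ℂ, Continuous q → ∀ a B : ℝ, 0 < a → 2 ≤ B →
    (∀ g : E n → ℂ, BB g → ∀ S : Set (E n), MeasurableSet S → μ S ≠ ∞ → (∀ x, ‖g x‖ ≤ 1) →
      (∀ x, x ∉ S → g x = 0) → En q g μ ≤ ENNReal.ofReal a * (μ S) ^ (2 / r)) →
    (∀ g : E n → ℂ, BB g → En q g μ ≤ ENNReal.ofReal a * (∫⁻ x, ‖g x‖ₑ ∂μ) ^ (2 : ℝ)) →
    (∀ g : E n → ℂ, BB g → En q g μ ≤ ENNReal.ofReal (a * B) * ∫⁻ x, ‖g x‖ₑ ^ (2 : ℝ) ∂μ) →
    ∀ g : E n → ℂ, BB g → ∫⁻ x, ‖g x‖ₑ ^ r ∂μ ≤ 1 →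
      En q g μ ≤ ENNReal.ofReal (C * a * (Real.log B) ^ 2) := by
  obtain ⟨C5, hC5, hnum⟩ := num_pcs r hr2
  have hr0 : 0 < r := by linarith
  refine ⟨4 * C5, by positivity, fun μ hμ q hq a B ha hB H1 H2 H3 g hg hg1 => ?_⟩
  have hB0 : 0 < B := by linarith
  obtain ⟨M, hM1, hM2⟩ := hnum B hB
  -- all pieces
  have hpc : ∀ i ∈ Finset.range (M + 2), En q (pcs g M i) μ ≤ ENNReal.ofReal (4 * a) := by
    intro i _
    match i with
    | 0 =>
      have h1 : ∫⁻ x, ‖pcs g M 0 x‖ₑ ∂μ ≤ 1 := by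
        refine le_trans (lintegral_mono fun x => ?_) hg1
        simp only [pcs]
        by_cases hx : x ∈ {x | 1 ≤ ‖g x‖}
        · rw [indicator_of_mem hx]
          have h2 : 1 ≤ ‖g x‖ₑ := by
            rw [← ofReal_norm, ← ENNReal.ofReal_one]
            exact ENNReal.ofReal_le_ofReal hx
          calc ‖g x‖ₑ = ‖g x‖ₑ ^ (1 : ℝ) := (ENNReal.rpow_one _).symm
            _ ≤ _ := ENNReal.rpow_le_rpow_of_exponent_le h2 hr1.le
        · rw [indicator_of_notMem hx, enorm_zero]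
          exact zero_le
      calc En q (pcs g M 0) μ ≤ ENNReal.ofReal a *
            (∫⁻ x, ‖pcs g M 0 x‖ₑ ∂μ) ^ (2 : ℝ) := H2 _ (pcs_bb hg M 0)
        _ ≤ ENNReal.ofReal a * 1 := by
            refine mul_le_mul' le_rfl ?_
            calc (∫⁻ x, ‖pcs g M 0 x‖ₑ ∂μ) ^ (2 : ℝ) ≤ 1 ^ (2 : ℝ) :=
                  ENNReal.rpow_le_rpow h1 (by norm_num)
              _ = 1 := ENNReal.one_rpow _
        _ ≤ _ := by
            rw [mul_one]
            exact ENNReal.ofReal_le_ofReal (by linarith)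
    | 1 =>
      have h1 : ∫⁻ x, ‖pcs g M 1 x‖ₑ ^ (2 : ℝ) ∂μ ≤ ENNReal.ofReal B⁻¹ := by
        calc ∫⁻ x, ‖pcs g M 1 x‖ₑ ^ (2 : ℝ) ∂μ ≤
            ∫⁻ x, ENNReal.ofReal B⁻¹ * ‖g x‖ₑ ^ r ∂μ := by
              refine lintegral_mono fun x => ?_
              simp only [pcs]
              by_cases hx : x ∈ {x | ‖g x‖ < (1 / 2 : ℝ) ^ M}
              · rw [indicator_of_mem hx]
                have e1 : ‖g x‖ₑ ^ (2 : ℝ) = ‖g x‖ₑ ^ (2 - r) * ‖g x‖ₑ ^ r := by
                  rw [← ENNReal.rpow_add_of_nonneg _ _ (by linarith) (by linarith)]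
                  congr 1
                  ring
                rw [e1]
                refine mul_le_mul' ?_ le_rfl
                rw [← ofReal_norm, ENNReal.ofReal_rpow_of_nonneg (norm_nonneg _) (by linarith)]
                refine ENNReal.ofReal_le_ofReal (le_trans ?_ hM1)
                exact Real.rpow_le_rpow (norm_nonneg _) (le_of_lt hx) (by linarith)
              · rw [indicator_of_notMem hx, enorm_zero, ENNReal.zero_rpow_of_pos (by norm_num)]
                exact zero_le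
          _ = ENNReal.ofReal B⁻¹ * ∫⁻ x, ‖g x‖ₑ ^ r ∂μ :=
              lintegral_const_mul' _ _ ENNReal.ofReal_ne_top
          _ ≤ ENNReal.ofReal B⁻¹ * 1 := mul_le_mul' le_rfl hg1
          _ = _ := mul_one _
      calc En q (pcs g M 1) μ ≤ ENNReal.ofReal (a * B) *
            ∫⁻ x, ‖pcs g M 1 x‖ₑ ^ (2 : ℝ) ∂μ := H3 _ (pcs_bb hg M 1)
        _ ≤ ENNReal.ofReal (a * B) * ENNReal.ofReal B⁻¹ := mul_le_mul' le_rfl h1
        _ ≤ _ := by
            rw [← ENNReal.ofReal_mul (by positivity), mul_assoc, mul_inv_cancel₀ hB0.ne', mul_one]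
            exact ENNReal.ofReal_le_ofReal (by linarith)
    | (j + 2) =>
      set t : ℝ := (1 / 2 : ℝ) ^ (j + 1) with ht
      have ht0 : 0 < t := by positivity
      have hms : μ {x | t ≤ ‖g x‖} ≤ ENNReal.ofReal (t ^ (-r)) := by
        have h1 := mul_meas_ge_le_lintegral₀ (μ := μ) (f := fun x => ‖g x‖ₑ ^ r)
          (hg.1.enorm.pow_const r).aemeasurable (ENNReal.ofReal (t ^ r))
        have h2 : {x | (t : ℝ) ≤ ‖g x‖} ⊆ {x | ENNReal.ofReal (t ^ r) ≤ ‖g x‖ₑ ^ r} := by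
          intro x hx
          change ENNReal.ofReal (t ^ r) ≤ ‖g x‖ₑ ^ r
          rw [← ofReal_norm, ENNReal.ofReal_rpow_of_nonneg (norm_nonneg _) hr0.le]
          exact ENNReal.ofReal_le_ofReal (Real.rpow_le_rpow ht0.le hx hr0.le)
        have h3 : ENNReal.ofReal (t ^ r) * μ {x | (t : ℝ) ≤ ‖g x‖} ≤ 1 :=
          (mul_le_mul' le_rfl (measure_mono h2)).trans (h1.trans hg1)
        rw [Real.rpow_neg ht0.le, ENNReal.ofReal_inv_of_pos (by positivity)]
        rw [ENNReal.le_inv_iff_mul_le, mul_comm]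
        exact h3
      -- the normalised piece
      set f : E n → ℂ := fun x => (((2 * t)⁻¹ : ℝ) : ℂ) * pcs g M (j + 2) x with hf
      have hc1 : ‖(((2 * t)⁻¹ : ℝ) : ℂ)‖ = (2 * t)⁻¹ := by
        rw [Complex.norm_real, Real.norm_of_nonneg (by positivity)]
      have h4 := H1 f (bb_smul (pcs_bb hg M (j + 2)) _) {x | t ≤ ‖g x‖}
        (measurableSet_le measurable_const hg.1.norm) (hms.trans_lt ENNReal.ofReal_lt_top).ne
        (by
          intro x
          rw [hf]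
          simp only [pcs]
          rw [norm_mul, hc1]
          by_cases hx : x ∈ lev g j
          · rw [indicator_of_mem hx, inv_mul_le_iff₀ (by positivity), mul_one]
            refine hx.2.le.trans (le_of_eq ?_)
            rw [ht, pow_succ]; ring
          · rw [indicator_of_notMem hx, norm_zero, mul_zero]; exact zero_le_one)
        (by
          intro x hx
          rw [hf]
          simp only [pcs]
          rw [indicator_of_notMem (fun h => hx h.1), mul_zero])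
      have h5 : En q f μ = ENNReal.ofReal ((2 * t)⁻¹ ^ (2 : ℝ)) * En q (pcs g M (j + 2)) μ := by
        rw [hf, en_smul, ← ofReal_norm, hc1, ENNReal.ofReal_rpow_of_nonneg (by positivity)
          (by norm_num)]
      rw [h5] at h4
      have h6 : (μ {x | t ≤ ‖g x‖}) ^ (2 / r) ≤ ENNReal.ofReal (t ^ (-(2 : ℝ))) := by
        calc (μ {x | t ≤ ‖g x‖}) ^ (2 / r) ≤ (ENNReal.ofReal (t ^ (-r))) ^ (2 / r) :=
              ENNReal.rpow_le_rpow hms (by positivity)
          _ = _ := by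
              rw [ENNReal.ofReal_rpow_of_nonneg (by positivity) (by positivity),
                ← Real.rpow_mul ht0.le]
              congr 2
              field_simp
      have h7 : En q (pcs g M (j + 2)) μ = ENNReal.ofReal ((2 * t) ^ (2 : ℝ)) *
          (ENNReal.ofReal ((2 * t)⁻¹ ^ (2 : ℝ)) * En q (pcs g M (j + 2)) μ) := by
        rw [← mul_assoc, ← ENNReal.ofReal_mul (by positivity),
          ← Real.mul_rpow (by positivity) (by positivity), mul_inv_cancel₀ (by positivity),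
          Real.one_rpow, ENNReal.ofReal_one, one_mul]
      rw [h7]
      refine (mul_le_mul' le_rfl (h4.trans (mul_le_mul' le_rfl h6))).trans ?_
      rw [← ENNReal.ofReal_mul ha.le, ← ENNReal.ofReal_mul (by positivity)]
      refine ENNReal.ofReal_le_ofReal (le_of_eq ?_)
      rw [Real.mul_rpow (by norm_num) ht0.le, Real.rpow_neg ht0.le]
      have h8 : t ^ (2 : ℝ) ≠ 0 := by positivity
      have h9 : (2 : ℝ) ^ (2 : ℝ) = 4 := by
        rw [show (2 : ℝ) ^ (2 : ℝ) = (2 : ℝ) ^ ((2 : ℕ) : ℝ) by norm_num, Real.rpow_natCast]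
        norm_num
      rw [h9]
      field_simp
  have hsum := en_sum hq hμ (Finset.range (M + 2)) (pcs g M) (fun i _ => pcs_bb hg M i)
  have hgs : (fun x => ∑ i ∈ Finset.range (M + 2), pcs g M i x) = g := by
    funext x; exact pcs_sum g M x
  rw [hgs, Finset.card_range] at hsum
  refine hsum.trans ?_
  refine (mul_le_mul' le_rfl (Finset.sum_le_card_nsmul _ _ _ hpc)).trans ?_
  rw [Finset.card_range, nsmul_eq_mul, ← mul_assoc, ← ENNReal.ofReal_natCast,
    ← ENNReal.ofReal_mul (by positivity), ← ENNReal.ofReal_mul (by positivity)]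
  refine ENNReal.ofReal_le_ofReal ?_
  have h7 : ((M + 2 : ℕ) : ℝ) * ((M + 2 : ℕ) : ℝ) ≤ C5 * Real.log B ^ 2 := by
    push_cast
    rw [← sq]; exact hM2
  calc ((M + 2 : ℕ) : ℝ) * ((M + 2 : ℕ) : ℝ) * (4 * a) ≤ C5 * Real.log B ^ 2 * (4 * a) := by
        gcongr
    _ = _ := by ring

theorem t_ls (n : ℕ) : S_LS n := by
  intro r hr1 hr2
  obtain ⟨C, hC, hN⟩ := ls_norm n r hr1 hr2
  refine ⟨C, hC, fun μ hμ q hq _ a B ha hB H1 H2 H3 g hg => ?_⟩
  have hr0 : 0 < r := by linarith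
  set J : ℝ≥0∞ := ∫⁻ x, ‖g x‖ₑ ^ r ∂μ with hJ
  have hJf : J ≠ ∞ := by
    obtain ⟨hm, ⟨M, hM⟩, ρ, hρ⟩ := hg
    have h1 : J ≤ ∫⁻ x, (closedBall (0 : E n) ρ).indicator
        (fun _ => ENNReal.ofReal (|M| ^ r)) x ∂μ := by
      refine lintegral_mono fun x => ?_
      by_cases hx : x ∈ closedBall (0 : E n) ρ
      · rw [indicator_of_mem hx, ← ofReal_norm,
          ENNReal.ofReal_rpow_of_nonneg (norm_nonneg _) hr0.le]
        exact ENNReal.ofReal_le_ofReal
          (Real.rpow_le_rpow (norm_nonneg _) ((hM x).trans (le_abs_self M)) hr0.le)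
      · rw [indicator_of_notMem hx, hρ x hx, enorm_zero, ENNReal.zero_rpow_of_pos hr0]
    rw [lintegral_indicator_const isClosed_closedBall.measurableSet] at h1
    exact (h1.trans_lt (ENNReal.mul_lt_top ENNReal.ofReal_lt_top (hμ 0 ρ))).ne
  rcases eq_or_ne J 0 with h0 | h0
  · have h1 : ∫⁻ x, ‖g x‖ₑ ∂μ = 0 := by
      rw [hJ, lintegral_eq_zero_iff (hg.1.enorm.pow_const r)] at h0
      rw [lintegral_eq_zero_iff hg.1.enorm]
      filter_upwards [h0] with x hx
      have hx' : ‖g x‖ₑ ^ r = 0 := hx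
      rcases ENNReal.rpow_eq_zero_iff.1 hx' with h2 | h2
      · exact h2.1
      · exact absurd h2.2 (by linarith)
    have h2 := H2 g hg
    rw [h1, ENNReal.zero_rpow_of_pos (by norm_num), mul_zero] at h2
    exact h2.trans zero_le
  · -- normalisation
    have hJt : 0 < J.toReal := ENNReal.toReal_pos h0 hJf
    set t : ℝ := J.toReal ^ (1 / r) with ht
    have ht0 : 0 < t := by positivity
    have hts : t ^ r = J.toReal := by
      rw [ht, ← Real.rpow_mul hJt.le, one_div_mul_cancel hr0.ne', Real.rpow_one]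
    have hc1 : ‖((t⁻¹ : ℝ) : ℂ)‖ = t⁻¹ := by
      rw [Complex.norm_real, Real.norm_of_nonneg (by positivity)]
    have hc2 : ‖((t : ℝ) : ℂ)‖ = t := by
      rw [Complex.norm_real, Real.norm_of_nonneg ht0.le]
    set g' : E n → ℂ := fun x => ((t⁻¹ : ℝ) : ℂ) * g x with hg'
    have hgg : g = fun x => ((t : ℝ) : ℂ) * g' x := by
      funext x
      rw [hg']
      simp only
      rw [← mul_assoc, ← Complex.ofReal_mul, mul_inv_cancel₀ ht0.ne', Complex.ofReal_one,
        one_mul]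
    have h1 : ∫⁻ x, ‖g' x‖ₑ ^ r ∂μ ≤ 1 := by
      have e1 : ∀ x, ‖g' x‖ₑ ^ r = ENNReal.ofReal (t⁻¹ ^ r) * ‖g x‖ₑ ^ r := by
        intro x
        rw [hg']
        simp only
        rw [enorm_mul, ENNReal.mul_rpow_of_nonneg _ _ hr0.le]
        congr 1
        rw [← ofReal_norm, hc1, ENNReal.ofReal_rpow_of_nonneg (by positivity) hr0.le]
      simp only [e1]
      rw [lintegral_const_mul' _ _ ENNReal.ofReal_ne_top, ← hJ, Real.inv_rpow ht0.le, hts,
        ENNReal.ofReal_inv_of_pos hJt, ENNReal.ofReal_toReal hJf, ENNReal.inv_mul_cancel h0 hJf]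
    have h2 := hN μ hμ q hq a B ha hB H1 H2 H3 g' (bb_smul hg _) h1
    have h3 : En q g μ = ‖((t : ℝ) : ℂ)‖ₑ ^ (2 : ℝ) * En q g' μ := by
      conv_lhs => rw [hgg]
      exact en_smul q μ g' _
    have h4 : ‖((t : ℝ) : ℂ)‖ₑ ^ (2 : ℝ) = J ^ (2 / r) := by
      rw [← ofReal_norm, hc2, ht, ← ENNReal.ofReal_rpow_of_nonneg hJt.le (by positivity),
        ENNReal.ofReal_toReal hJf, ← ENNReal.rpow_mul]
      congr 1
      ring
    rw [h3, h4, mul_comm]
    exact mul_le_mul' h2 le_rfl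

end Pool.Agent.Y275.FD
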